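import Pool.Agent.H93.SP.Targets

/-!
# Transfer property: basic open sets (modules TRB2, TRB3)
-/

open Topology Set
open Pool.Agent.H59 Pool.Agent.H64.LB
open Pool.Agent.H93.SPB

namespace Pool.Agent.H39.SP

theorem trb2 : T_TRB2 := by
  intro V Q _ _ _ a O O' hO hO'
  obtain ⟨hOo, K, hKf, hK, hKd, hKU⟩ := hO
  obtain ⟨hOo', K', hKf', hK', hKd', hKU'⟩ := hO'
  refine ⟨hOo.inter hOo', ((fun kk : Set V × Set V => kk.1 ∩ kk.2) '' (K ×ˢ K')) ∩
    {s | s.Nonempty}, ?_, ?_, ?_, ?_⟩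
  · exact ((hKf.prod hKf').image _).subset inter_subset_left
  · rintro _ ⟨⟨⟨k, k'⟩, ⟨hk, hk'⟩, rfl⟩, hne⟩
    exact ⟨(hK k hk).1.inter (hK' k' hk').1, (hK k hk).2.1.inter (hK' k' hk').2.1, hne⟩
  · rintro _ ⟨⟨⟨k, k'⟩, ⟨hk, hk'⟩, rfl⟩, hne⟩ _ ⟨⟨⟨l, l'⟩, ⟨hl, hl'⟩, rfl⟩, hne'⟩ hkl
    simp only at hk hk' hl hl' hkl
    simp only [Function.onFun, id]
    rw [Set.disjoint_left]
    rintro v ⟨hv, hv'⟩ ⟨hw, hw'⟩
    apply hkl
    have e1 : k = l := by
      by_contra h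
      exact (Set.disjoint_left.1 (hKd hk hl h)) hv hw
    have e2 : k' = l' := by
      by_contra h
      exact (Set.disjoint_left.1 (hKd' hk' hl' h)) hv' hw'
    rw [e1, e2]
  · ext v
    constructor
    · rintro ⟨_, ⟨⟨⟨k, k'⟩, ⟨hk, hk'⟩, rfl⟩, -⟩, hv, hv'⟩
      refine ⟨?_, ?_⟩
      · have : v ∈ a.p ⁻¹' O := by
          rw [← hKU]
          exact ⟨k, hk, hv⟩
        exact this
      · have : v ∈ a.p ⁻¹' O' := by
          rw [← hKU']
          exact ⟨k', hk', hv'⟩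
        exact this
    · rintro ⟨hv, hv'⟩
      have h1 : v ∈ ⋃₀ K := by
        rw [hKU]
        exact hv
      have h2 : v ∈ ⋃₀ K' := by
        rw [hKU']
        exact hv'
      obtain ⟨k, hk, hvk⟩ := h1
      obtain ⟨k', hk', hvk'⟩ := h2
      exact ⟨k ∩ k', ⟨⟨(k, k'), ⟨hk, hk'⟩, rfl⟩, ⟨v, hvk, hvk'⟩⟩, hvk, hvk'⟩

theorem trb3 : T_TRB3 := by
  intro V Q _ _ _ a hL O hO
  refine ⟨{P | Basic a P ∧ P ⊆ O}, fun P hP => hP.1, ?_⟩
  apply Subset.antisymm
  · rintro q ⟨P, hP, hq⟩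
    exact hP.2 hq
  intro q0 hq0
  obtain ⟨v0, rfl⟩ := hL.surj q0
  -- isometry
  have hneg : ∀ g v, a.act g (-v) = -a.act g v := by
    intro g v
    have := hL.smul g (-1) v
    simpa using this
  have hsub : ∀ g v w, a.act g (v - w) = a.act g v - a.act g w := by
    intro g v w
    rw [sub_eq_add_neg, hL.add, hneg, sub_eq_add_neg]
  have hiso : ∀ g v w, dist (a.act g v) (a.act g w) = dist v w := by
    intro g v w
    rw [dist_eq_norm, dist_eq_norm, ← hsub, hL.norm]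
  have hinv : ∀ g v, a.act g (a.act g⁻¹ v) = v := by
    intro g v
    have h := a.act_mul g g⁻¹
    rw [mul_inv_cancel, a.act_one] at h
    exact (DFunLike.congr_fun h v).symm
  have hinv' : ∀ g v, a.act g⁻¹ (a.act g v) = v := by
    intro g v
    have h := a.act_mul g⁻¹ g
    rw [inv_mul_cancel, a.act_one] at h
    exact (DFunLike.congr_fun h v).symm
  have hUo : IsOpen (a.p ⁻¹' O) := hO.preimage a.p.continuous
  obtain ⟨e1, he1, hball⟩ := Metric.isOpen_iff.1 hUo v0 hq0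
  -- separation of the orbit
  have hsep : ∃ e2 > 0, ∀ g h : a.G, a.act g v0 ≠ a.act h v0 →
      2 * e2 ≤ dist (a.act g v0) (a.act h v0) := by
    classical
    set S : Finset ℝ := (Finset.univ.filter fun gh : a.G × a.G =>
      a.act gh.1 v0 ≠ a.act gh.2 v0).image fun gh => dist (a.act gh.1 v0) (a.act gh.2 v0) with hS
    have hpos : ∀ s ∈ S, 0 < s := by
      intro s hs
      rw [hS, Finset.mem_image] at hs
      obtain ⟨gh, hgh, rfl⟩ := hs
      exact dist_pos.2 (Finset.mem_filter.1 hgh).2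
    rcases S.eq_empty_or_nonempty with h0 | hne
    · refine ⟨1, one_pos, fun g h hgh => ?_⟩
      exfalso
      have : dist (a.act g v0) (a.act h v0) ∈ S := by
        rw [hS]
        exact Finset.mem_image.2 ⟨(g, h), Finset.mem_filter.2 ⟨Finset.mem_univ _, hgh⟩, rfl⟩
      rw [h0] at this
      exact absurd this (Finset.notMem_empty _)
    · refine ⟨S.min' hne / 2, half_pos (hpos _ (S.min'_mem hne)), fun g h hgh => ?_⟩
      have : dist (a.act g v0) (a.act h v0) ∈ S := by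
        rw [hS]
        exact Finset.mem_image.2 ⟨(g, h), Finset.mem_filter.2 ⟨Finset.mem_univ _, hgh⟩, rfl⟩
      have := S.min'_le _ this
      linarith
  obtain ⟨e2, he2, hsep⟩ := hsep
  set e := min e1 e2 with he
  have he0 : 0 < e := lt_min he1 he2
  have hPo : IsOpen (a.p '' Metric.ball v0 e) := hL.isOpenMap _ Metric.isOpen_ball
  have hPO : a.p '' Metric.ball v0 e ⊆ O := by
    rintro _ ⟨v, hv, rfl⟩
    exact hball (Metric.ball_subset_ball (min_le_left _ _) hv)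
  refine ⟨a.p '' Metric.ball v0 e, ⟨⟨hPo, range fun g : a.G => Metric.ball (a.act g v0) e,
    finite_range _, ?_, ?_, ?_⟩, hPO⟩, ⟨v0, Metric.mem_ball_self he0, rfl⟩⟩
  · rintro _ ⟨g, rfl⟩
    exact ⟨Metric.isOpen_ball, convex_ball _ _, ⟨_, Metric.mem_ball_self he0⟩⟩
  · rintro _ ⟨g, rfl⟩ _ ⟨h, rfl⟩ hgh
    simp only [Function.onFun, id]
    have hne : a.act g v0 ≠ a.act h v0 := by
      intro hh
      apply hgh
      simp only [hh]
    apply Metric.ball_disjoint_ball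
    have h1 := hsep g h hne
    have h2 : e ≤ e2 := min_le_right _ _
    linarith
  · ext w
    constructor
    · rintro ⟨_, ⟨g, rfl⟩, hw⟩
      refine ⟨a.act g⁻¹ w, ?_, a.p_act _ _⟩
      rw [Metric.mem_ball]
      have h1 := hiso g⁻¹ w (a.act g v0)
      rw [hinv'] at h1
      rw [h1]
      exact hw
    · rintro ⟨v, hv, hvw⟩
      obtain ⟨g, rfl⟩ := hL.fib v w hvw
      refine ⟨_, ⟨g, rfl⟩, ?_⟩
      simp only [Metric.mem_ball]
      rw [hiso]
      exact hv

end Pool.Agent.H39.SP
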