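import Pool.Agent.H93.SP.Targets

/-!
# Transfer property: the Mayer-Vietoris step (module TRMV)
-/

open Topology Set
open Pool.Agent.H59 Pool.Agent.H64.LB
open Pool.Agent.H93.SPB

namespace Pool.Agent.H39.SP

variable {V Q : Type} [TopologicalSpace V] [TopologicalSpace Q] (a : GA V Q)

theorem pr_inc {S T : Set Q} (h : S ⊆ T) (q : ℕ) (x : HH ℚ q (a.p ⁻¹' S)) :
    HH.map ℚ q (a.pr T) (HH.map ℚ q (inc (preimage_mono h : a.p ⁻¹' S ⊆ a.p ⁻¹' T)) x) =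
      HH.map ℚ q (inc h) (HH.map ℚ q (a.pr S) x) := by
  rw [← HH.map_comp, ← HH.map_comp]
  rfl

theorem ac_inc {S T : Set Q} (h : S ⊆ T) (g : a.G) (q : ℕ) (x : HH ℚ q (a.p ⁻¹' S)) :
    HH.map ℚ q (a.ac g T) (HH.map ℚ q (inc (preimage_mono h : a.p ⁻¹' S ⊆ a.p ⁻¹' T)) x) =
      HH.map ℚ q (inc (preimage_mono h : a.p ⁻¹' S ⊆ a.p ⁻¹' T)) (HH.map ℚ q (a.ac g S) x) := by
  rw [← HH.map_comp, ← HH.map_comp]
  rfl

theorem pr_ac (S : Set Q) (g : a.G) (q : ℕ) (x : HH ℚ q (a.p ⁻¹' S)) :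
    HH.map ℚ q (a.pr S) (HH.map ℚ q (a.ac g S) x) = HH.map ℚ q (a.pr S) x := by
  rw [← HH.map_comp]
  congr 2
  ext v
  exact a.p_act g v

theorem ac_ac (S : Set Q) (g h : a.G) (q : ℕ) (x : HH ℚ q (a.p ⁻¹' S)) :
    HH.map ℚ q (a.ac g S) (HH.map ℚ q (a.ac h S) x) = HH.map ℚ q (a.ac (g * h) S) x := by
  rw [← HH.map_comp]
  congr 2
  ext v
  exact (DFunLike.congr_fun (a.act_mul g h) v.1).symm

/-- the sum over the group -/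
noncomputable def Nm (S : Set Q) (q : ℕ) : HH ℚ q (a.p ⁻¹' S) →ₗ[ℚ] HH ℚ q (a.p ⁻¹' S) :=
  ∑ g : a.G, HH.map ℚ q (a.ac g S)

theorem Nm_apply (S : Set Q) (q : ℕ) (x : HH ℚ q (a.p ⁻¹' S)) :
    Nm a S q x = ∑ g : a.G, HH.map ℚ q (a.ac g S) x := by
  simp [Nm, LinearMap.sum_apply]

theorem pr_Nm (S : Set Q) (q : ℕ) (x : HH ℚ q (a.p ⁻¹' S)) :
    HH.map ℚ q (a.pr S) (Nm a S q x) = (Fintype.card a.G : ℚ) • HH.map ℚ q (a.pr S) x := by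
  rw [Nm_apply, map_sum]
  simp only [pr_ac]
  rw [Finset.sum_const, Finset.card_univ, Nat.cast_smul_eq_nsmul]

theorem Nm_inc {S T : Set Q} (h : S ⊆ T) (q : ℕ) (x : HH ℚ q (a.p ⁻¹' S)) :
    Nm a T q (HH.map ℚ q (inc (preimage_mono h : a.p ⁻¹' S ⊆ a.p ⁻¹' T)) x) =
      HH.map ℚ q (inc (preimage_mono h : a.p ⁻¹' S ⊆ a.p ⁻¹' T)) (Nm a S q x) := by
  rw [Nm_apply, Nm_apply, map_sum]
  exact Finset.sum_congr rfl fun g _ => ac_inc a h g q x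

theorem Nm_Nm (S : Set Q) (q : ℕ) (x : HH ℚ q (a.p ⁻¹' S)) :
    Nm a S q (Nm a S q x) = (Fintype.card a.G : ℚ) • Nm a S q x := by
  rw [Nm_apply a S q (Nm a S q x)]
  have h : ∀ g : a.G, HH.map ℚ q (a.ac g S) (Nm a S q x) = Nm a S q x := by
    intro g
    rw [Nm_apply, map_sum]
    simp only [ac_ac]
    exact Equiv.sum_comp (Equiv.mulLeft g) (fun h => HH.map ℚ q (a.ac h S) x)
  simp only [h]
  rw [Finset.sum_const, Finset.card_univ, Nat.cast_smul_eq_nsmul]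

theorem cardG_ne : (Fintype.card a.G : ℚ) ≠ 0 := by
  have : 0 < Fintype.card a.G := Fintype.card_pos_iff.2 ⟨1⟩
  exact_mod_cast this.ne'

theorem TR_Nm {a : GA V Q} {O : Set Q} (h : a.TR O) (q : ℕ) (x : HH ℚ q (a.p ⁻¹' O))
    (hx : HH.map ℚ q (a.pr O) x = 0) : Nm a O q x = 0 := by
  rw [Nm_apply]
  exact (h q).2 x hx

theorem trmv (hMV : T_MV) : T_TRMV := by
  intro V Q _ _ a O₁ O₂ hO₁ hO₂ h₁ h₂ h₁₂
  obtain ⟨D, hD, hnat, -⟩ := hMV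
  have hU₁ : IsOpen (a.p ⁻¹' O₁) := hO₁.preimage a.p.continuous
  have hU₂ : IsOpen (a.p ⁻¹' O₂) := hO₂.preimage a.p.continuous
  obtain ⟨d1, d2, d3, d4⟩ := hD Q O₁ O₂ hO₁ hO₂
  obtain ⟨DV, u1, u2, u4, Dp, Dg⟩ : ∃ DV : ∀ q : ℕ, HH ℚ (q + 1) (a.p ⁻¹' (O₁ ∪ O₂)) →ₗ[ℚ]
      HH ℚ q (a.p ⁻¹' (O₁ ∩ O₂)),
      (∀ q x, DV q x = 0 → ∃ (y : HH ℚ (q + 1) (a.p ⁻¹' O₁)) (z : HH ℚ (q + 1) (a.p ⁻¹' O₂)),
        x = HH.map ℚ (q + 1) (inc (preimage_mono subset_union_left :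
          a.p ⁻¹' O₁ ⊆ a.p ⁻¹' (O₁ ∪ O₂))) y +
        HH.map ℚ (q + 1) (inc (preimage_mono subset_union_right :
          a.p ⁻¹' O₂ ⊆ a.p ⁻¹' (O₁ ∪ O₂))) z) ∧
      (∀ (q : ℕ) (x : HH ℚ q (a.p ⁻¹' (O₁ ∩ O₂))),
        HH.map ℚ q (inc (preimage_mono inter_subset_left :
          a.p ⁻¹' (O₁ ∩ O₂) ⊆ a.p ⁻¹' O₁)) x = 0 →
        HH.map ℚ q (inc (preimage_mono inter_subset_right :
          a.p ⁻¹' (O₁ ∩ O₂) ⊆ a.p ⁻¹' O₂)) x = 0 → ∃ w, DV q w = x) ∧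
      (∀ x : HH ℚ 0 (a.p ⁻¹' (O₁ ∪ O₂)), ∃ (y : HH ℚ 0 (a.p ⁻¹' O₁)) (z : HH ℚ 0 (a.p ⁻¹' O₂)),
        x = HH.map ℚ 0 (inc (preimage_mono subset_union_left :
          a.p ⁻¹' O₁ ⊆ a.p ⁻¹' (O₁ ∪ O₂))) y +
        HH.map ℚ 0 (inc (preimage_mono subset_union_right :
          a.p ⁻¹' O₂ ⊆ a.p ⁻¹' (O₁ ∪ O₂))) z) ∧
      (∀ (q : ℕ) (x : HH ℚ (q + 1) (a.p ⁻¹' (O₁ ∪ O₂))),
        D Q O₁ O₂ q (HH.map ℚ (q + 1) (a.pr (O₁ ∪ O₂)) x) =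
          HH.map ℚ q (a.pr (O₁ ∩ O₂)) (DV q x)) ∧
      (∀ (g : a.G) (q : ℕ) (x : HH ℚ (q + 1) (a.p ⁻¹' (O₁ ∪ O₂))),
        DV q (HH.map ℚ (q + 1) (a.ac g (O₁ ∪ O₂)) x) =
          HH.map ℚ q (a.ac g (O₁ ∩ O₂)) (DV q x)) := by
    obtain ⟨u1, u2, u3, u4⟩ := hD V (a.p ⁻¹' O₁) (a.p ⁻¹' O₂) hU₁ hU₂
    refine ⟨fun q => D V (a.p ⁻¹' O₁) (a.p ⁻¹' O₂) q, fun q x => (u1 q x).1,
      fun q x h h' => (u2 q x).2 ⟨h, h'⟩, u4, fun q x =>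
      hnat V Q (a.p ⁻¹' O₁) (a.p ⁻¹' O₂) O₁ O₂ a.p (fun _ h => h) (fun _ h => h) q x
        hU₁ hU₂ hO₁ hO₂, fun g q x =>
      hnat V V (a.p ⁻¹' O₁) (a.p ⁻¹' O₂) (a.p ⁻¹' O₁) (a.p ⁻¹' O₂) (a.act g)
      (fun v h => by
        change a.p (a.act g v) ∈ O₁
        rw [a.p_act]
        exact h)
      (fun v h => by
        change a.p (a.act g v) ∈ O₂
        rw [a.p_act]
        exact h) q x hU₁ hU₂ hU₁ hU₂⟩
  have DN : ∀ (q : ℕ) (x : HH ℚ (q + 1) (a.p ⁻¹' (O₁ ∪ O₂))),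
      DV q (Nm a (O₁ ∪ O₂) (q + 1) x) = Nm a (O₁ ∩ O₂) q (DV q x) := by
    intro q x
    rw [Nm_apply, Nm_apply, map_sum]
    exact Finset.sum_congr rfl fun g _ => Dg g q x
  -- the key computation
  have key : ∀ (q : ℕ) (y : HH ℚ q (a.p ⁻¹' O₁)) (z : HH ℚ q (a.p ⁻¹' O₂)),
      HH.map ℚ q (a.pr (O₁ ∪ O₂))
        (HH.map ℚ q (inc (preimage_mono subset_union_left :
          a.p ⁻¹' O₁ ⊆ a.p ⁻¹' (O₁ ∪ O₂))) y +
        HH.map ℚ q (inc (preimage_mono subset_union_right :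
          a.p ⁻¹' O₂ ⊆ a.p ⁻¹' (O₁ ∪ O₂))) z) = 0 →
      Nm a (O₁ ∪ O₂) q
        (HH.map ℚ q (inc (preimage_mono subset_union_left :
          a.p ⁻¹' O₁ ⊆ a.p ⁻¹' (O₁ ∪ O₂))) y +
        HH.map ℚ q (inc (preimage_mono subset_union_right :
          a.p ⁻¹' O₂ ⊆ a.p ⁻¹' (O₁ ∪ O₂))) z) = 0 := by
    intro q y z h
    rw [map_add, pr_inc a subset_union_left, pr_inc a subset_union_right] at h
    obtain ⟨c, hc1, hc2⟩ := (d3 q _ _).1 h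
    obtain ⟨c', rfl⟩ := (h₁₂ q).1 c
    rw [← pr_inc a inter_subset_left, ← sub_eq_zero, ← map_sub] at hc1
    rw [← pr_inc a inter_subset_right, ← map_neg, ← sub_eq_zero, ← map_sub] at hc2
    have e1 := TR_Nm h₁ q _ hc1
    have e2 := TR_Nm h₂ q _ hc2
    rw [map_sub, sub_eq_zero, Nm_inc a inter_subset_left] at e1
    rw [map_sub, sub_eq_zero, map_neg, Nm_inc a inter_subset_right] at e2
    rw [map_add, Nm_inc a subset_union_left, Nm_inc a subset_union_right, e1, e2, map_neg, ← HH.map_comp, ← HH.map_comp]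
    exact add_neg_cancel _
  intro q
  constructor
  · intro z
    cases q with
    | zero =>
      obtain ⟨y, z', rfl⟩ := d4 z
      obtain ⟨y', rfl⟩ := (h₁ 0).1 y
      obtain ⟨z'', rfl⟩ := (h₂ 0).1 z'
      refine ⟨HH.map ℚ 0 (inc (preimage_mono subset_union_left :
          a.p ⁻¹' O₁ ⊆ a.p ⁻¹' (O₁ ∪ O₂))) y' +
        HH.map ℚ 0 (inc (preimage_mono subset_union_right :
          a.p ⁻¹' O₂ ⊆ a.p ⁻¹' (O₁ ∪ O₂))) z'', ?_⟩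
      rw [map_add, pr_inc a subset_union_left, pr_inc a subset_union_right]
    | succ q =>
      obtain ⟨c1, c2⟩ := (d2 q _).1 ⟨z, rfl⟩
      obtain ⟨c', hc'⟩ := (h₁₂ q).1 (D Q O₁ O₂ q z)
      rw [← hc', ← pr_inc a inter_subset_left] at c1
      rw [← hc', ← pr_inc a inter_subset_right] at c2
      have e1 := TR_Nm h₁ q _ c1
      have e2 := TR_Nm h₂ q _ c2
      rw [Nm_inc a inter_subset_left] at e1
      rw [Nm_inc a inter_subset_right] at e2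
      obtain ⟨w, hw⟩ := u2 q (Nm a (O₁ ∩ O₂) q c') e1 e2
      have h3 : D Q O₁ O₂ q (HH.map ℚ (q + 1) (a.pr (O₁ ∪ O₂)) w -
          (Fintype.card a.G : ℚ) • z) = 0 := by
        rw [map_sub, map_smul, Dp, hw, pr_Nm, hc', sub_self]
      obtain ⟨y, z', h4⟩ := (d1 q _).1 h3
      obtain ⟨y', rfl⟩ := (h₁ (q + 1)).1 y
      obtain ⟨z'', rfl⟩ := (h₂ (q + 1)).1 z'
      refine ⟨(Fintype.card a.G : ℚ)⁻¹ • (w - HH.map ℚ (q + 1) (inc (preimage_mono subset_union_left :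
          a.p ⁻¹' O₁ ⊆ a.p ⁻¹' (O₁ ∪ O₂))) y' -
        HH.map ℚ (q + 1) (inc (preimage_mono subset_union_right :
          a.p ⁻¹' O₂ ⊆ a.p ⁻¹' (O₁ ∪ O₂))) z''), ?_⟩
      rw [map_smul, map_sub, map_sub, pr_inc a subset_union_left, pr_inc a subset_union_right,
        inv_smul_eq_iff₀ (cardG_ne a)]
      rw [sub_eq_iff_eq_add] at h4
      rw [h4]
      abel
  · intro x hx
    rw [← Nm_apply]
    cases q with
    | zero =>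
      obtain ⟨y, z, h'⟩ := u4 x
      rw [h'] at hx ⊢
      exact key 0 y z hx
    | succ q =>
      have h1 := Dp q x
      rw [hx, map_zero] at h1
      have h2 := TR_Nm h₁₂ q _ h1.symm
      rw [← DN] at h2
      obtain ⟨y, z, h'⟩ := u1 q _ h2
      have h3 : HH.map ℚ (q + 1) (a.pr (O₁ ∪ O₂)) (Nm a (O₁ ∪ O₂) (q + 1) x) = 0 := by
        rw [pr_Nm, hx, smul_zero]
      rw [h'] at h3
      have h4 := key (q + 1) y z h3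
      rw [← h', Nm_Nm] at h4
      exact (smul_eq_zero.1 h4).resolve_left (cardG_ne a)

end Pool.Agent.H39.SP
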