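import Pool.Agent.H39.SP.TRMV

/-!
# Transfer property: local to global (module TRU)
-/

open Topology Set
open Pool.Agent.H59 Pool.Agent.H64.LB
open Pool.Agent.H93.SPB

namespace Pool.Agent.H39.SP

theorem subsingleton_HH (q : ℕ) (Y : Type) [TopologicalSpace Y] [IsEmpty Y] :
    Subsingleton (HH ℚ q Y) := by
  have hne : Nonempty (Dl (q + 1)) := inferInstance
  have he : IsEmpty (Smp (q + 1) Y) := by
    constructor
    intro f
    exact IsEmpty.false (f hne.some)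
  refine ⟨fun x y => ?_⟩
  obtain ⟨x', rfl⟩ := HH.mk_surjective ℚ q x
  obtain ⟨y', rfl⟩ := HH.mk_surjective ℚ q y
  congr 1
  apply Subtype.ext
  ext s
  exact (he.false s).elim

variable {V Q : Type} [TopologicalSpace V] [TopologicalSpace Q]

theorem TR_empty (a : GA V Q) : a.TR ∅ := by
  intro q
  have h1 : IsEmpty (∅ : Set Q) := inferInstance
  have h2 : IsEmpty (a.p ⁻¹' (∅ : Set Q)) := ⟨fun v => v.2⟩
  have s1 := subsingleton_HH q (∅ : Set Q)
  have s2 := subsingleton_HH q (a.p ⁻¹' (∅ : Set Q))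
  exact ⟨fun z => ⟨0, Subsingleton.elim _ _⟩, fun x _ => Subsingleton.elim _ _⟩

theorem TR_finite (hT : T_TRMV) (a : GA V Q) (B : Set (Set Q)) (hB : ∀ O ∈ B, IsOpen O ∧ a.TR O)
    (hI : ∀ O ∈ B, ∀ O' ∈ B, O ∩ O' ∈ B) (n : ℕ) :
    ∀ S : Finset (Set Q), S.card ≤ n → (∀ O ∈ S, O ∈ B) → a.TR (⋃₀ (S : Set (Set Q))) := by
  classical
  induction n with
  | zero =>
    intro S hS _
    have : S = ∅ := Finset.card_eq_zero.1 (Nat.le_zero.1 hS)
    rw [this, Finset.coe_empty, sUnion_empty]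
    exact TR_empty a
  | succ n ih =>
    intro S hS hSB
    rcases S.eq_empty_or_nonempty with h0 | ⟨O, hO⟩
    · rw [h0, Finset.coe_empty, sUnion_empty]
      exact TR_empty a
    · have hc : (S.erase O).card ≤ n := by
        rw [Finset.card_erase_of_mem hO]
        omega
      have hSB' : ∀ P ∈ S.erase O, P ∈ B := fun P hP => hSB P (Finset.mem_of_mem_erase hP)
      have e1 : ⋃₀ (S : Set (Set Q)) = ⋃₀ ((S.erase O : Finset (Set Q)) : Set (Set Q)) ∪ O := by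
        conv_lhs => rw [← Finset.insert_erase hO]
        rw [Finset.coe_insert, sUnion_insert, union_comm]
      have e2 : ⋃₀ ((S.erase O : Finset (Set Q)) : Set (Set Q)) ∩ O =
          ⋃₀ (((S.erase O).image fun P => P ∩ O : Finset (Set Q)) : Set (Set Q)) := by
        ext x
        simp only [mem_inter_iff, mem_sUnion, Finset.coe_image, mem_image, Finset.mem_coe]
        constructor
        · rintro ⟨⟨P, hP, hx⟩, hxO⟩
          exact ⟨P ∩ O, ⟨P, hP, rfl⟩, hx, hxO⟩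
        · rintro ⟨_, ⟨P, hP, rfl⟩, hx, hxO⟩
          exact ⟨⟨P, hP, hx⟩, hxO⟩
      rw [e1]
      apply hT V Q a _ _ (isOpen_sUnion fun P hP => (hB P (hSB' P hP)).1) (hB O (hSB O hO)).1
        (ih _ hc hSB') (hB O (hSB O hO)).2
      rw [e2]
      apply ih _ (Finset.card_image_le.trans hc)
      intro P hP
      obtain ⟨P', hP', rfl⟩ := Finset.mem_image.1 hP
      exact hI _ (hSB' P' hP') _ (hSB O hO)

theorem TR_directed (hCS : T_CS) (a : GA V Q) (F : Set (Set Q)) (hne : F.Nonempty)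
    (hF : ∀ A ∈ F, IsOpen A ∧ a.TR A) (hd : ∀ A ∈ F, ∀ B ∈ F, ∃ C ∈ F, A ⊆ C ∧ B ⊆ C) :
    a.TR (⋃₀ F) := by
  set F' : Set (Set V) := (fun A => a.p ⁻¹' A) '' F with hF'
  have hU : a.p ⁻¹' (⋃₀ F) = ⋃₀ F' := by
    ext v
    simp only [hF', mem_preimage, mem_sUnion, sUnion_image, mem_iUnion, exists_prop]
  have hd' : ∀ A ∈ F', ∀ B ∈ F', ∃ C ∈ F', A ⊆ C ∧ B ⊆ C := by
    rintro _ ⟨A, hA, rfl⟩ _ ⟨B, hB, rfl⟩
    obtain ⟨C, hC, h1, h2⟩ := hd A hA B hB
    exact ⟨_, ⟨C, hC, rfl⟩, preimage_mono h1, preimage_mono h2⟩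
  have ho' : ∀ A ∈ F', IsOpen A := by
    rintro _ ⟨A, hA, rfl⟩
    exact (hF A hA).1.preimage a.p.continuous
  intro q
  have c1 := hCS Q F hne (fun A hA => (hF A hA).1) hd q
  have c2 := hCS V F' (hne.image _) ho' hd' q
  constructor
  · intro z
    obtain ⟨A, hA, y, rfl⟩ := c1.1 z
    obtain ⟨y', rfl⟩ := ((hF A hA).2 q).1 y
    exact ⟨_, pr_inc a (subset_sUnion_of_mem hA) q y'⟩
  · intro x hx
    rw [← Nm_apply]
    obtain ⟨A', hA', y, hy⟩ := c2.1 (HH.map ℚ q (inc hU.le) x)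
    obtain ⟨A, hA, rfl⟩ := hA'
    have hx' : x = HH.map ℚ q (inc (preimage_mono (subset_sUnion_of_mem hA) :
        a.p ⁻¹' A ⊆ a.p ⁻¹' (⋃₀ F))) y := by
      have h1 : HH.map ℚ q (inc hU.ge) (HH.map ℚ q (inc hU.le) x) = x := by
        rw [← HH.map_comp]
        exact HH.map_id ℚ q x
      rw [← h1, hy, ← HH.map_comp]
      rfl
    rw [hx', pr_inc a (subset_sUnion_of_mem hA)] at hx
    obtain ⟨B, hB, hAB, h2⟩ := c1.2 A hA _ hx
    rw [← pr_inc a hAB] at h2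
    have h3 := TR_Nm (hF B hB).2 q _ h2
    have h4 : x = HH.map ℚ q (inc (preimage_mono (subset_sUnion_of_mem hB) :
        a.p ⁻¹' B ⊆ a.p ⁻¹' (⋃₀ F))) (HH.map ℚ q (inc (preimage_mono hAB :
        a.p ⁻¹' A ⊆ a.p ⁻¹' B)) y) := by
      rw [hx', ← HH.map_comp]
      rfl
    rw [h4, Nm_inc a (subset_sUnion_of_mem hB), h3, map_zero]

theorem tru (hT : T_TRMV) (hCS : T_CS) : T_TRU := by
  classical
  intro V Q _ _ a B hB hI C hC
  set F : Set (Set Q) := {A | ∃ S : Finset (Set Q), (∀ O ∈ S, O ∈ C) ∧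
    ⋃₀ (S : Set (Set Q)) = A} with hF
  have e : ⋃₀ C = ⋃₀ F := by
    ext x
    constructor
    · rintro ⟨O, hO, hx⟩
      refine ⟨O, ⟨{O}, ?_, ?_⟩, hx⟩
      · intro P hP
        rw [Finset.mem_singleton.1 hP]
        exact hO
      · simp
    · rintro ⟨_, ⟨S, hS, rfl⟩, O, hO, hx⟩
      exact ⟨O, hS O hO, hx⟩
  rw [e]
  apply TR_directed hCS a F
  · exact ⟨∅, ∅, by simp, by simp⟩
  · rintro _ ⟨S, hS, rfl⟩
    exact ⟨isOpen_sUnion fun O hO => (hB O (hC (hS O hO))).1,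
      TR_finite hT a B hB hI S.card S le_rfl fun O hO => hC (hS O hO)⟩
  · rintro _ ⟨S, hS, rfl⟩ _ ⟨S', hS', rfl⟩
    refine ⟨_, ⟨S ∪ S', ?_, rfl⟩, ?_, ?_⟩
    · intro O hO
      rcases Finset.mem_union.1 hO with h | h
      · exact hS O h
      · exact hS' O h
    · exact sUnion_mono (by simp)
    · exact sUnion_mono (by simp)

end Pool.Agent.H39.SP
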